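import Mathlib
import Pool.Agent.W_MP_cc6bdf_an.Defs
import Pool.Agent.W_MP_cc6bdf_an.Proof

set_option autoImplicit false

namespace Pool.Agent.Results.MP_cc6bdf_an.SharpConstant

open Filter Topology Pool.Agent.W_MP_cc6bdf_an

/-- **Determination of `c_5`.** For all `a < b`, the upper limit
`c_5 = limsup √n · E(M_n^2; Z_D) / (b - a)` equals `1/2`; moreover the limit exists. -/
theorem result (a b : ℝ) (hab : a < b) :
    limsup (fun n : ℕ => Real.sqrt n * EZ n a b / (b - a)) atTop = 1 / 2 ∧
      Tendsto (fun n : ℕ => Real.sqrt n * EZ n a b / (b - a)) atTop (𝓝 (1 / 2)) :=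
  ⟨(tendsto_main hab).limsup_eq, tendsto_main hab⟩

end Pool.Agent.Results.MP_cc6bdf_an.SharpConstant
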